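import Mathlib.Algebra.MonoidAlgebra.MapDomain
import Mathlib.Algebra.MonoidAlgebra.NoZeroDivisors
import Mathlib.Tactic

/-!
# Formal sums of slopes
-/

set_option autoImplicit false

namespace Pool.Agent.Y116.OR

/-- formal sums of rational numbers with multiplicities -/
abbrev Slopes : Type := AddMonoidAlgebra ℕ ℚ

/-- the passage to integral coefficients -/
noncomputable def toInt : Slopes →+* AddMonoidAlgebra ℤ ℚ :=
  AddMonoidAlgebra.mapRingHom ℚ (Nat.castRingHom ℤ)

lemma toInt_coeff (x : Slopes) (s : ℚ) : (toInt x).coeff s = (x.coeff s : ℤ) := by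
  simp [toInt]

lemma toInt_inj {x y : Slopes} (h : toInt x = toInt y) : x = y := by
  ext s
  have h1 := congrArg (fun z => AddMonoidAlgebra.coeff z s) h
  simp only [toInt_coeff] at h1
  exact_mod_cast h1

lemma eq_of_sq {x y : Slopes} (h : x * x = y * y) : x = y := by
  have h1 : toInt x * toInt x = toInt y * toInt y := by rw [← map_mul, ← map_mul, h]
  have h2 : (toInt x - toInt y) * (toInt x + toInt y) = 0 := by
    have e : (toInt x - toInt y) * (toInt x + toInt y) =
      toInt x * toInt x - toInt y * toInt y := by ring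
    rw [e, h1, sub_self]
  rcases mul_eq_zero.mp h2 with h3 | h3
  · exact toInt_inj (sub_eq_zero.mp h3)
  · have key : ∀ s, x.coeff s = 0 ∧ y.coeff s = 0 := by
      intro s
      have h4 := congrArg (fun z => AddMonoidAlgebra.coeff z s) h3
      simp only [AddMonoidAlgebra.coeff_add, Finsupp.add_apply, toInt_coeff,
        AddMonoidAlgebra.coeff_zero, Finsupp.zero_apply] at h4
      omega
    ext s
    rw [(key s).1, (key s).2]

/-- the number of slopes, counted with multiplicities -/
noncomputable def total (x : Slopes) : ℕ := x.coeff.sum fun _ m => m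

lemma coeff_le_total (x : Slopes) (s : ℚ) : x.coeff s ≤ total x := by
  classical
  unfold total
  rw [Finsupp.sum]
  by_cases hs : s ∈ x.coeff.support
  · exact Finset.single_le_sum (f := fun s => x.coeff s) (fun _ _ => Nat.zero_le _) hs
  · rw [Finsupp.notMem_support_iff.mp hs]
    exact Nat.zero_le _

lemma eq_of_digits {a a' b b' : Slopes} (B : ℕ) (ha : total a' ≤ B) (hb : total b' ≤ B)
    (h : (B + 1) • a + a' = (B + 1) • b + b') : a = b ∧ a' = b' := by
  have key : ∀ s, a.coeff s = b.coeff s ∧ a'.coeff s = b'.coeff s := by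
    intro s
    have h1 := congrArg (fun z => AddMonoidAlgebra.coeff z s) h
    simp only [AddMonoidAlgebra.coeff_add, Finsupp.add_apply, AddMonoidAlgebra.coeff_smul,
      Finsupp.smul_apply, smul_eq_mul] at h1
    have h2 := (coeff_le_total a' s).trans ha
    have h3 := (coeff_le_total b' s).trans hb
    have h4 : a.coeff s = b.coeff s := by
      have e1 : ((B + 1) * a.coeff s + a'.coeff s) / (B + 1) = a.coeff s := by
        rw [Nat.mul_add_div (by omega), Nat.div_eq_of_lt (by omega), add_zero]
      have e2 : ((B + 1) * b.coeff s + b'.coeff s) / (B + 1) = b.coeff s := by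
        rw [Nat.mul_add_div (by omega), Nat.div_eq_of_lt (by omega), add_zero]
      rw [← e1, ← e2, h1]
    refine ⟨h4, ?_⟩
    rw [h4] at h1
    omega
  exact ⟨by ext s; rw [(key s).1], by ext s; rw [(key s).2]⟩

lemma cancel_single {x y : Slopes} (n : ℚ)
    (h : x * AddMonoidAlgebra.single n 1 = y * AddMonoidAlgebra.single n 1) : x = y := by
  have e : (AddMonoidAlgebra.single n 1 : Slopes) * AddMonoidAlgebra.single (-n) 1 = 1 := by
    rw [AddMonoidAlgebra.single_mul_single, add_neg_cancel, mul_one]
    rfl
  have h1 := congrArg (fun z => z * (AddMonoidAlgebra.single (-n) 1 : Slopes)) h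
  simpa [mul_assoc, e] using h1

end Pool.Agent.Y116.OR
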