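import Pool.Agent.Y101.Th.PairDefs
import Pool.Agent.Y101.Th.BilDefs
import Pool.Agent.Y116.OR.Alg

/-!
# Newton and Hodge polygons of pure motives over a number field: definitions
-/

set_option autoImplicit false

open CategoryTheory Limits MonoidalCategory AlgebraicGeometry

namespace Pool.Agent.Y116.OR

open Pool.Agent.Y116.UV Pool.Agent.Y101.Th

universe v u

attribute [local instance] Abelian.hasFiniteBiproducts

/-- `A` is a direct factor of `B`. -/
def Fac {𝒜 : Type u} [Category.{v} 𝒜] (A B : 𝒜) : Prop := Nonempty (Retract A B)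

/-- `L ⊗ ... ⊗ L` -/
def lpow {𝒜 : Type u} [Category.{v} 𝒜] [MonoidalCategory 𝒜] (L : 𝒜) : ℕ → 𝒜
  | 0 => 𝟙_ 𝒜
  | n + 1 => lpow L n ⊗ L

/-- The data, for a number field `K` and the category `𝒜` of pure motives over `K` (for motivated
cycles): `H X i = h^i(X)` for smooth projective schemes `X` over `K`; `E Y i = ⨁_w gr^W_w h^i_c(Y)`,
the sum of the weight graded parts of the motive of `H^i_c` of `Y ⊗ K`, for schemes `Y` of finite
type over `ℚ`; the Lefschetz motive `L = ℚ(-1)`; the finite places `Pl` of `K`; `R v` is the set of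
the pairs of a prime `ℓ` not divisible by `v` and an embedding `τ` of the algebraic numbers in
`ℚ_ℓ`-bar into `ℚ_p`-bar, `v` above `p`; `newton v x A` is the formal sum of the slopes, for
`x = (ℓ, τ)`, of the eigenvalues of `Frob_v` on the `ℓ`-adic realisation of `A` (unramified at `v` for
almost all `v`); `hodge A` is the formal sum of the slopes of the Hodge polygon of `A`. -/
structure Data (K : Type) [Field K] (𝒜 : Type u) where
  H : Sch K → ℤ → 𝒜
  E : Sch ℚ → ℤ → 𝒜
  L : 𝒜
  Pl : Type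
  R : Pl → Type
  newton : ∀ v : Pl, R v → 𝒜 → Slopes
  hodge : 𝒜 → Slopes

variable {K : Type} [Field K] {𝒜 : Type u} [Category.{v} 𝒜] [Abelian 𝒜] [MonoidalCategory 𝒜]

/-- `v` is ordinary for the motive `A`: all Newton polygons are equal to the Hodge polygon. -/
def Data.Ord (T : Data K 𝒜) (v : T.Pl) (A : 𝒜) : Prop := ∀ x : T.R v, T.newton v x A = T.hodge A

/-- `v` is ordinary for all direct factors of the motive `A`. -/
def Data.AllOrd (T : Data K 𝒜) (v : T.Pl) (A : 𝒜) : Prop := ∀ R : 𝒜, Fac R A → T.Ord v R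

/-- the cohomology of `X` in the degrees `0, ..., n - 1` -/
noncomputable def Data.tot (T : Data K 𝒜) (X : Sch K) (n : ℕ) : 𝒜 :=
  ⨁ fun q : Fin n => T.H X (q : ℤ)

/-- The systems of fewer than `N` bilinear equations, with coefficients `0` and `1`, in fewer than
`N` variables `y` and fewer than `C` variables `z`, together with a degree smaller than `N`. -/
abbrev Idx (N C : ℕ) : Type :=
  (a : Fin N) × (b : Fin N) × (c : Fin C) × ((Fin a → Fin b → Fin c → Bool) × Fin N)

/-- the scheme of the solutions of the bilinear equations -/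
noncomputable def Idx.sch {N C : ℕ} (x : Idx N C) : Sch ℚ :=
  bilS fun i j l => if x.2.2.2.1 i j l then (1 : ℚ) else 0

/-- the motive `⨁ E(B_t, i)`, the sum over the elements of `Idx N C` -/
noncomputable def Data.M (T : Data K 𝒜) (N C : ℕ) : 𝒜 :=
  ⨁ fun x : Idx N C => T.E x.sch (x.2.2.2.2 : ℤ)

/-- A notion of large sets of places, stable under enlarging a set and removing finitely many
places (for instance the infinite sets, the sets of positive lower density, the sets of density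
one). -/
def IsLargeness {P : Type} (Lg : Set P → Prop) : Prop :=
  ∀ s t : Set P, Lg s → (∀ᶠ v in Filter.cofinite, v ∈ s → v ∈ t) → Lg t

/-- the exact sequences `E U i → E X i → E Z i` and `E Z i → E U (i + 1) → E X (i + 1)` -/
def HasLocalization (T : Data K 𝒜) (Z X U : Sch ℚ) : Prop :=
  ∀ i : ℤ, ∃ (f : T.E U i ⟶ T.E X i) (g : T.E X i ⟶ T.E Z i) (δ : T.E Z i ⟶ T.E U (i + 1))
    (f' : T.E U (i + 1) ⟶ T.E X (i + 1)) (w : f ≫ g = 0) (w' : δ ≫ f' = 0),
    (ShortComplex.mk f g w).Exact ∧ (ShortComplex.mk δ f' w').Exact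

/-- Known properties of the polygons: invariance under isomorphism; for almost all places they are
additive and multiplicative and have the same length; the slope of the Lefschetz motive is one;
the direct factors of the unit motive. -/
structure IsSlopes (T : Data K 𝒜) : Prop where
  iso : ∀ {A B : 𝒜}, Nonempty (A ≅ B) → T.hodge A = T.hodge B ∧
    ∀ v (x : T.R v), T.newton v x A = T.newton v x B
  sum : ∀ A B : 𝒜, T.hodge (A ⊞ B) = T.hodge A + T.hodge B ∧
    ∀ᶠ v in Filter.cofinite, ∀ x : T.R v, T.newton v x (A ⊞ B) = T.newton v x A + T.newton v x B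
  tensor : ∀ A B : 𝒜, T.hodge (A ⊗ B) = T.hodge A * T.hodge B ∧
    ∀ᶠ v in Filter.cofinite, ∀ x : T.R v, T.newton v x (A ⊗ B) = T.newton v x A * T.newton v x B
  length : ∀ A : 𝒜, ∀ᶠ v in Filter.cofinite, ∀ x : T.R v,
    total (T.newton v x A) = total (T.hodge A)
  lefschetz : T.hodge T.L = AddMonoidAlgebra.single 1 1 ∧
    ∀ᶠ v in Filter.cofinite, ∀ x : T.R v, T.newton v x T.L = AddMonoidAlgebra.single 1 1
  unit : T.hodge (𝟙_ 𝒜) = 1 ∧ ∀ R : 𝒜, Fac R (𝟙_ 𝒜) → ∀ᶠ v in Filter.cofinite, T.Ord v R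

/-- Known properties of pure motives over `K`: the category is semisimple, every motive has only
finitely many direct factors up to isomorphism; the direct factors of `A ⊗ L` are the `R ⊗ L` for the
direct factors `R` of `A`; isomorphism invariance; localization sequences; `h^i_c(Y × 𝔸^n)`;
`h^i_c(Y)` is a direct factor of `h^(i+1)_c(Y × 𝔾_m)` (both for affine `Y`); the empty scheme; the
point; negative degrees; smooth projective schemes over `K` are open and closed in `Y ⊗ K` for a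
scheme `Y` over `ℚ`; the weight graded parts of `h^i_c(Y)` are direct factors of the motives of
smooth projective schemes of at most the same dimension (resolution of singularities); disjoint
unions; Künneth formula; the projective line. -/
structure IsData (T : Data K 𝒜) : Prop extends IsSlopes T where
  semisimple : ∀ S : ShortComplex 𝒜, S.ShortExact → Nonempty S.Splitting
  finite : ∀ A : 𝒜, ∃ (m : ℕ) (R : Fin m → 𝒜), (∀ j, Fac (R j) A) ∧
    ∀ B : 𝒜, Fac B A → ∃ j, Nonempty (R j ≅ B)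
  twist : ∀ A R : 𝒜, Fac R (A ⊗ T.L) → ∃ R' : 𝒜, Fac R' A ∧ Nonempty (R ≅ R' ⊗ T.L)
  invariance : ∀ {X Y : Sch ℚ}, FT True X → Nonempty (X ≅ Y) → ∀ i, Nonempty (T.E X i ≅ T.E Y i)
  localization : ∀ {Z X U : Sch ℚ} (a : Z ⟶ X) (b : U ⟶ X), FT True X → IsTriple a b →
    HasLocalization T Z X U
  space : ∀ (A : Type) [CommRing A] [Algebra ℚ A] [Algebra.FiniteType ℚ A] (n : ℕ) (i : ℤ),
    Nonempty (T.E (aff ℚ (MvPolynomial (Fin n) A)) (i + 2 * n) ≅ T.E (aff ℚ A) i ⊗ lpow T.L n)
  torus : ∀ (A : Type) [CommRing A] [Algebra ℚ A] [Algebra.FiniteType ℚ A] (i : ℤ),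
    Fac (T.E (aff ℚ A) i) (T.E (aff ℚ (LaurentPolynomial A)) (i + 1))
  empty : ∀ (A : Type) [CommRing A] [Algebra ℚ A], Subsingleton A →
    ∀ i, IsZero (T.E (aff ℚ A) i)
  point : Nonempty (T.E (aff ℚ ℚ) 0 ≅ 𝟙_ 𝒜) ∧ ∀ i, i ≠ 0 → IsZero (T.E (aff ℚ ℚ) i)
  negative : ∀ Y : Sch ℚ, FT True Y → ∀ i, i < 0 → IsZero (T.E Y i)
  model : ∀ X : Sch K, SmProj X → ∃ Y : Sch ℚ, FT True Y ∧
    (∀ d : ℕ, topologicalKrullDim X.left ≤ d → topologicalKrullDim Y.left ≤ d) ∧
    ∀ i, Fac (T.H X i) (T.E Y i)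
  resolution : ∀ Y : Sch ℚ, FT True Y → ∀ d : ℕ, topologicalKrullDim Y.left ≤ d → ∀ i,
    ∃ X : Sch K, SmProj X ∧ topologicalKrullDim X.left ≤ d ∧ ∃ n, Fac (T.E Y i) (T.tot X n)
  disjoint : ∀ X X' : Sch K, SmProj X → SmProj X' → ∃ X'' : Sch K, SmProj X'' ∧
    (∀ d : ℕ, topologicalKrullDim X.left ≤ d → topologicalKrullDim X'.left ≤ d →
      topologicalKrullDim X''.left ≤ d) ∧ ∀ i, Nonempty (T.H X'' i ≅ T.H X i ⊞ T.H X' i)
  kunneth : ∀ X Y : Sch K, SmProj X → SmProj Y → ∃ Z : Sch K, SmProj Z ∧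
    ∀ i j, Fac (T.H X i ⊗ T.H Y j) (T.H Z (i + j))
  line : ∃ X : Sch K, SmProj X ∧ Fac (𝟙_ 𝒜) (T.H X 0) ∧ Fac T.L (T.H X 2)

end Pool.Agent.Y116.OR
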