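import Pool.Agent.Y116.OR.Defs
import Pool.Agent.Y101.Th.RMain
import Pool.Agent.Y101.Th.Swap

/-!
# The motives generated by a directed family
-/

set_option autoImplicit false
set_option linter.unusedSectionVars false

open CategoryTheory Limits MonoidalCategory AlgebraicGeometry

namespace Pool.Agent.Y116.OR

open Pool.Agent.Y116.UV Pool.Agent.Y101.Th Pool.Agent.Y101.Th.RX

universe v u w

attribute [local instance] Abelian.hasFiniteBiproducts

variable {K : Type} [Field K] {𝒜 : Type u} [Category.{v} 𝒜] [Abelian 𝒜] [MonoidalCategory 𝒜]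
  {T : Data K 𝒜}

lemma Fac.refl (A : 𝒜) : Fac A A := ⟨⟨𝟙 A, 𝟙 A, by simp⟩⟩

lemma Fac.trans {A B C : 𝒜} : Fac A B → Fac B C → Fac A C := by
  rintro ⟨r⟩ ⟨s⟩
  exact ⟨⟨r.i ≫ s.i, s.r ≫ r.r, by simp⟩⟩

lemma Fac.of_iso {A B : 𝒜} (e : A ≅ B) : Fac A B := ⟨⟨e.hom, e.inv, by simp⟩⟩

lemma Fac.tensor {A B A' B' : 𝒜} : Fac A B → Fac A' B' → Fac (A ⊗ A') (B ⊗ B') := by
  rintro ⟨r⟩ ⟨s⟩
  exact ⟨⟨r.i ⊗ₘ s.i, r.r ⊗ₘ s.r, by simp⟩⟩

lemma Fac.of_isZero {A B : 𝒜} (h : IsZero A) : Fac A B := ⟨⟨0, 0, h.eq_of_src _ _⟩⟩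

lemma fac_big {J : Type} [Finite J] (f : J → 𝒜) (j : J) : Fac (f j) (⨁ f) :=
  ⟨⟨biproduct.ι f j, biproduct.π f j, biproduct.ι_π_self f j⟩⟩

lemma fac_inl (A B : 𝒜) : Fac A (A ⊞ B) := ⟨⟨biprod.inl, biprod.fst, by simp⟩⟩

lemma fac_inr (A B : 𝒜) : Fac B (A ⊞ B) := ⟨⟨biprod.inr, biprod.snd, by simp⟩⟩

/-- in a semisimple category an exact sequence `A → B → C` makes `B` a direct factor of `A ⊞ C` -/
lemma fac_of_exact (hs : ∀ S : ShortComplex 𝒜, S.ShortExact → Nonempty S.Splitting)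
    {A B C : 𝒜} (f : A ⟶ B) (g : B ⟶ C) (w : f ≫ g = 0) (h : (ShortComplex.mk f g w).Exact) :
    Fac B (A ⊞ C) := by
  -- the kernel of `g`
  have hf : Epi (kernel.lift g f w) := h.epi_kernelLift
  let S1 : ShortComplex 𝒜 := ShortComplex.mk (kernel.ι (kernel.lift g f w)) (kernel.lift g f w)
    (kernel.condition _)
  have h1 : S1.ShortExact := by
    refine ⟨?_⟩
    exact ShortComplex.exact_kernel _
  obtain ⟨s1⟩ := hs S1 h1
  let S2 : ShortComplex 𝒜 := ShortComplex.mk (kernel.ι g) (Abelian.factorThruImage g) (by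
    rw [← cancel_mono (Abelian.image.ι g)]
    simp)
  have h2 : S2.ShortExact := by
    refine ⟨?_⟩
    have h21 : (ShortComplex.mk (kernel.ι g) g (kernel.condition g)).Exact :=
      ShortComplex.exact_kernel g
    let φ : S2 ⟶ ShortComplex.mk (kernel.ι g) g (kernel.condition g) :=
      { τ₁ := 𝟙 _
        τ₂ := 𝟙 _
        τ₃ := Abelian.image.ι g
        comm₁₂ := by simp [S2]
        comm₂₃ := by simp [S2] }
    have i1 : Epi φ.τ₁ := by dsimp [φ]; infer_instance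
    have i2 : IsIso φ.τ₂ := by dsimp [φ]; infer_instance
    have i3 : Mono φ.τ₃ := by dsimp [φ]; infer_instance
    exact (ShortComplex.exact_iff_of_epi_of_isIso_of_mono φ).2 h21
  obtain ⟨s2⟩ := hs S2 h2
  let S3 : ShortComplex 𝒜 := ShortComplex.mk (Abelian.image.ι g) (cokernel.π (Abelian.image.ι g))
    (cokernel.condition _)
  have h3 : S3.ShortExact := by
    refine ⟨?_⟩
    exact ShortComplex.exact_cokernel _
  obtain ⟨s3⟩ := hs S3 h3
  refine ⟨⟨biprod.lift (s2.r ≫ s1.s) g, biprod.desc f (s3.r ≫ s2.s), ?_⟩⟩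
  have e1 : s1.s ≫ kernel.lift g f w = 𝟙 _ := s1.s_g
  have e2 : kernel.lift g f w ≫ kernel.ι g = f := kernel.lift_ι g f w
  have e3 : Abelian.image.ι g ≫ s3.r = 𝟙 _ := s3.f_r
  have e4 : Abelian.factorThruImage g ≫ Abelian.image.ι g = g := Abelian.image.fac g
  have e5 : s2.r ≫ kernel.ι g + Abelian.factorThruImage g ≫ s2.s = 𝟙 _ := s2.id
  rw [biprod.lift_desc]
  have e6 : (s2.r ≫ s1.s) ≫ f = s2.r ≫ kernel.ι g := by
    rw [← e2, Category.assoc, reassoc_of% e1]
  have e7 : g ≫ s3.r ≫ s2.s = Abelian.factorThruImage g ≫ s2.s := by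
    conv_lhs => rw [← e4]
    rw [Category.assoc, reassoc_of% e3]
  rw [e6, e7, e5]

/-- The motives generated by `A`: direct sums, direct factors, Tate twists. -/
inductive Gen (T : Data K 𝒜) (A : 𝒜) : 𝒜 → Prop
  | base : Gen T A A
  | unit : Gen T A (𝟙_ 𝒜)
  | twist {B : 𝒜} : Gen T A B → Gen T A (B ⊗ T.L)
  | fac {B C : 𝒜} : Fac B C → Gen T A C → Gen T A B
  | sum {B C : 𝒜} : Gen T A B → Gen T A C → Gen T A (B ⊞ C)

lemma Gen.trans {A B C : 𝒜} (h1 : Gen T A B) (h2 : Gen T B C) : Gen T A C := by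
  induction h2 with
  | base => exact h1
  | unit => exact Gen.unit
  | twist _ h => exact Gen.twist h
  | fac hf _ h => exact Gen.fac hf h
  | sum _ _ h h' => exact Gen.sum h h'

lemma gen_zero {A B : 𝒜} (h : IsZero B) : Gen T A B := Gen.fac (Fac.of_isZero h) (Gen.unit)

lemma gen_lpow {A B : 𝒜} (h : Gen T A B) (n : ℕ) : Gen T A (B ⊗ lpow T.L n) := by
  induction n with
  | zero => exact Gen.fac (Fac.of_iso (ρ_ B)) h
  | succ n ih => exact Gen.fac (Fac.of_iso (α_ B (lpow T.L n) T.L).symm) (Gen.twist ih)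

/-- finite direct sums -/
lemma Gen.bigsum {A : 𝒜} {J : Type} [Finite J] (f : J → 𝒜) (h : ∀ j, Gen T A (f j)) :
    Gen T A (⨁ f) := by
  classical
  have := Fintype.ofFinite J
  suffices H : ∀ s : Finset J, Gen T A (⨁ fun j : s => f j) by
    have h1 := H Finset.univ
    refine Gen.fac ?_ h1
    exact ⟨⟨biproduct.lift fun j => biproduct.π f j.1,
      biproduct.desc fun j => biproduct.ι f j.1, by
        rw [biproduct.lift_desc, ← biproduct.total]
        exact Finset.sum_coe_sort Finset.univ fun j => biproduct.π f j ≫ biproduct.ι f j⟩⟩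
  intro s
  induction s using Finset.induction_on with
  | empty =>
    refine gen_zero ?_
    rw [IsZero.iff_id_eq_zero]
    apply biproduct.hom_ext
    intro j
    exact absurd j.2 (Finset.notMem_empty _)
  | insert a s ha ih =>
    refine Gen.fac (C := (⨁ fun j : s => f j) ⊞ f a) ?_ (Gen.sum ih (h a))
    refine ⟨⟨biprod.lift (biproduct.lift fun j => biproduct.π (fun j : ↥(insert a s) => f j)
        ⟨j.1, Finset.mem_insert_of_mem j.2⟩) (biproduct.π (fun j : ↥(insert a s) => f j)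
        ⟨a, Finset.mem_insert_self a s⟩),
      biprod.desc (biproduct.desc fun j => biproduct.ι (fun j : ↥(insert a s) => f j)
        ⟨j.1, Finset.mem_insert_of_mem j.2⟩) (biproduct.ι (fun j : ↥(insert a s) => f j)
        ⟨a, Finset.mem_insert_self a s⟩), ?_⟩⟩
    rw [biprod.lift_desc, biproduct.lift_desc, ← biproduct.total]
    have e := Finset.sum_coe_sort (insert a s) fun j => if hj : j ∈ insert a s then
      biproduct.π (fun j : ↥(insert a s) => f j) ⟨j, hj⟩ ≫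
        biproduct.ι (fun j : ↥(insert a s) => f j) ⟨j, hj⟩ else 0
    have e1 : ∑ j : ↥(insert a s), biproduct.π (fun j : ↥(insert a s) => f j) j ≫
        biproduct.ι (fun j : ↥(insert a s) => f j) j =
        ∑ j ∈ insert a s, if hj : j ∈ insert a s then
      biproduct.π (fun j : ↥(insert a s) => f j) ⟨j, hj⟩ ≫
        biproduct.ι (fun j : ↥(insert a s) => f j) ⟨j, hj⟩ else 0 := by
      rw [← e]
      refine Finset.sum_congr rfl fun j _ => ?_
      rw [dif_pos j.2]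
    rw [e1, Finset.sum_insert ha, dif_pos (Finset.mem_insert_self a s), add_comm]
    congr 1
    rw [← Finset.sum_coe_sort s]
    refine Finset.sum_congr rfl fun j _ => ?_
    rw [dif_pos (Finset.mem_insert_of_mem j.2)]

/-- a family of motives, directed for generation -/
def IsDir (T : Data K 𝒜) {ι : Type w} (B : ι → 𝒜) : Prop :=
  ∀ i j, ∃ k, Gen T (B k) (B i) ∧ Gen T (B k) (B j)

section dir

variable {ι : Type w} {B : ι → 𝒜}

lemma dir_two (hB : IsDir T B) {X Y : 𝒜} (h1 : ∃ i, Gen T (B i) X) (h2 : ∃ i, Gen T (B i) Y) :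
    ∃ i, Gen T (B i) X ∧ Gen T (B i) Y := by
  obtain ⟨i, hi⟩ := h1
  obtain ⟨j, hj⟩ := h2
  obtain ⟨k, hki, hkj⟩ := hB i j
  exact ⟨k, hki.trans hi, hkj.trans hj⟩

lemma dir_fin (hB : IsDir T B) [Nonempty ι] {J : Type} [Finite J] (f : J → 𝒜)
    (h : ∀ j, ∃ i, Gen T (B i) (f j)) : ∃ i, ∀ j, Gen T (B i) (f j) := by
  classical
  have := Fintype.ofFinite J
  suffices H : ∀ s : Finset J, ∃ i, ∀ j ∈ s, Gen T (B i) (f j) by
    obtain ⟨i, hi⟩ := H Finset.univ
    exact ⟨i, fun j => hi j (Finset.mem_univ j)⟩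
  intro s
  induction s using Finset.induction_on with
  | empty => exact ⟨Classical.arbitrary ι, fun j hj => absurd hj (Finset.notMem_empty j)⟩
  | insert a s _ ih =>
    obtain ⟨i, hi⟩ := ih
    obtain ⟨j, hj⟩ := h a
    obtain ⟨k, hki, hkj⟩ := hB i j
    refine ⟨k, fun x hx => ?_⟩
    rcases Finset.mem_insert.mp hx with rfl | hx
    · exact hkj.trans hj
    · exact hki.trans (hi x hx)

lemma dir_big (hB : IsDir T B) [Nonempty ι] {J : Type} [Finite J] (f : J → 𝒜)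
    (h : ∀ j, ∃ i, Gen T (B i) (f j)) : ∃ i, Gen T (B i) (⨁ f) := by
  obtain ⟨i, hi⟩ := dir_fin hB f h
  exact ⟨i, Gen.bigsum f hi⟩

/-- all `h^i_c(Y)` are generated by members of the family `B` -/
def PE (T : Data K 𝒜) (B : ι → 𝒜) (Y : Sch ℚ) : Prop :=
  ∀ i : ℤ, ∃ j, Gen T (B j) (T.E Y i)

/-- The property is closed under closed-open decompositions, affine spaces and tori. -/
theorem ru_of_dir (hT : IsData T) (hB : IsDir T B) [Nonempty ι] :
    RU True (PE T B) where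
  iso := by
    intro X Y hX e h i
    obtain ⟨j, hj⟩ := h i
    obtain ⟨e'⟩ := hT.invariance hX e i
    exact ⟨j, Gen.fac (Fac.of_iso e'.symm) hj⟩
  total := by
    intro Z X U a b hX ht hZ hU i
    obtain ⟨f, g, δ, f', w, w', h1, h2⟩ := hT.localization a b hX ht i
    obtain ⟨k, hk1, hk2⟩ := dir_two hB (hU i) (hZ i)
    exact ⟨k, Gen.fac (fac_of_exact hT.semisimple f g w h1) (Gen.sum hk1 hk2)⟩
  opened := by
    intro Z X U a b hX ht hZ hX' i
    obtain ⟨i, rfl⟩ : ∃ i', i = i' + 1 := ⟨i - 1, by ring⟩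
    obtain ⟨f, g, δ, f', w, w', h1, h2⟩ := hT.localization a b hX ht i
    obtain ⟨k, hk1, hk2⟩ := dir_two hB (hZ i) (hX' (i + 1))
    exact ⟨k, Gen.fac (fac_of_exact hT.semisimple δ f' w' h2) (Gen.sum hk1 hk2)⟩
  space := by
    intro n i
    obtain ⟨i, rfl⟩ : ∃ i', i = i' + 2 * (n : ℤ) := ⟨i - 2 * n, by ring⟩
    obtain ⟨e⟩ := hT.space ℚ n i
    refine ⟨Classical.arbitrary ι, Gen.fac (Fac.of_iso e) (gen_lpow ?_ n)⟩
    by_cases hi : i = 0
    · subst hi
      obtain ⟨e⟩ := hT.point.1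
      exact Gen.fac (Fac.of_iso e) Gen.unit
    · exact gen_zero (hT.point.2 i hi)
  poly := by
    intro A _ _ _ n h i
    obtain ⟨i, rfl⟩ : ∃ i', i = i' + 2 * (n : ℤ) := ⟨i - 2 * n, by ring⟩
    obtain ⟨e⟩ := hT.space A n i
    obtain ⟨k, hk⟩ := h i
    exact ⟨k, Gen.fac (Fac.of_iso e) (gen_lpow hk n)⟩
  torus := by
    intro A _ _ _ h i
    obtain ⟨k, hk⟩ := h (i + 1)
    exact ⟨k, Gen.fac (hT.torus A i) hk⟩
  empty := by
    intro A _ _ hA i
    exact ⟨Classical.arbitrary ι, gen_zero (hT.empty A hA i)⟩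

end dir

/-! ### The explicit motives -/

lemma comp_gen {N C : ℕ} (x : Idx N C) : Gen T (T.M N C) (T.E x.sch (x.2.2.2.2 : ℤ)) :=
  Gen.fac (fac_big (fun x : Idx N C => T.E x.sch (x.2.2.2.2 : ℤ)) x) Gen.base

lemma gen_M_bil {N C a b c : ℕ} (t : Fin a → Fin b → Fin c → ℚ)
    (ht : ∀ i j l, t i j l = 0 ∨ t i j l = 1) (n : ℕ) (ha : a < N) (hb : b < N) (hc : c < C)
    (hn : n < N) : Gen T (T.M N C) (T.E (bilS t) (n : ℤ)) := by
  classical
  let x : Idx N C := ⟨⟨a, ha⟩, ⟨b, hb⟩, ⟨c, hc⟩, fun i j l => decide (t i j l = 1), ⟨n, hn⟩⟩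
  have h1 : x.sch = bilS t := by
    have h2 : (fun i j l => if decide (t i j l = 1) = true then (1 : ℚ) else 0) = t := by
      funext i j l
      rcases ht i j l with h | h
      · rw [h]; simp
      · rw [h]; simp
    change bilS (fun i j l => if decide (t i j l = 1) = true then (1 : ℚ) else 0) = bilS t
    rw [h2]
  have h2 := comp_gen (T := T) x
  rw [h1] at h2
  exact h2

lemma M_mono {N N' C C' : ℕ} (hN : N ≤ N') (hC : C ≤ C') : Gen T (T.M N' C') (T.M N C) := by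
  refine Gen.bigsum _ fun x => ?_
  obtain ⟨a, b, c, t, i⟩ := x
  exact comp_gen (T := T) (N := N') (C := C')
    ⟨⟨a, a.2.trans_le hN⟩, ⟨b, b.2.trans_le hN⟩, ⟨c, c.2.trans_le hC⟩, t, ⟨i, i.2.trans_le hN⟩⟩

lemma dir_M (C : ℕ) : IsDir T fun N => T.M N C := fun i j =>
  ⟨max i j, M_mono (le_max_left _ _) le_rfl, M_mono (le_max_right _ _) le_rfl⟩

lemma ft_bilS {a b c : ℕ} (t : Fin a → Fin b → Fin c → ℚ) : FT True (bilS t) := by
  rw [bilS]
  exact ft_aff True

/-- The explicit motives generate the cohomology of all schemes of dimension at most `d`. -/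
theorem gen_of_dim (hT : IsData T) (d : ℕ) (Y : Sch ℚ) (hY : FT True Y)
    (hd : topologicalKrullDim Y.left ≤ d) : PE T (fun N => T.M N (d + 3)) Y := by
  refine (r_dim_frac isFrac_rat (ru_of_dir hT (dir_M (d + 3))) d).2 ?_ Y hY hd
  intro a b t ht i
  rcases lt_or_ge i 0 with hi | hi
  · exact ⟨0, gen_zero (hT.negative _ (ft_bilS t) i hi)⟩
  · obtain ⟨n, rfl⟩ := Int.eq_ofNat_of_zero_le hi
    exact ⟨a + b + n + 1, gen_M_bil t ht n (by omega) (by omega) (by omega) (by omega)⟩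


end Pool.Agent.Y116.OR
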