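import Pool.Agent.Y116.OR.Eng

/-!
# Ordinary places of all direct factors
-/

set_option autoImplicit false
set_option linter.unusedSectionVars false

open CategoryTheory Limits MonoidalCategory AlgebraicGeometry

namespace Pool.Agent.Y116.OR

open Pool.Agent.Y116.UV Pool.Agent.Y101.Th Pool.Agent.Y101.Th.RX

universe v u w

attribute [local instance] Abelian.hasFiniteBiproducts

variable {K : Type} [Field K] {𝒜 : Type u} [Category.{v} 𝒜] [Abelian 𝒜] [MonoidalCategory 𝒜]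
  {T : Data K 𝒜}

/-- a monomorphism in a semisimple category is the inclusion of a direct factor -/
lemma fac_of_mono (hs : ∀ S : ShortComplex 𝒜, S.ShortExact → Nonempty S.Splitting) {A B : 𝒜}
    (m : A ⟶ B) [Mono m] : Fac A B := by
  let S : ShortComplex 𝒜 := ShortComplex.mk m (cokernel.π m) (cokernel.condition _)
  have h : S.ShortExact := by
    refine ⟨?_⟩
    exact ShortComplex.exact_cokernel _
  obtain ⟨s⟩ := hs S h
  exact ⟨⟨m, s.r, s.f_r⟩⟩

/-- a direct factor of `B ⊞ C` is the sum of a direct factor of `B` and one of `C` -/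
lemma fac_split (hs : ∀ S : ShortComplex 𝒜, S.ShortExact → Nonempty S.Splitting) {R B C : 𝒜}
    (h : Fac R (B ⊞ C)) : ∃ R1 R2, Fac R1 B ∧ Fac R2 C ∧ Nonempty (R ≅ R1 ⊞ R2) := by
  obtain ⟨r⟩ := h
  have hi : Mono r.i := by
    have : Mono (r.i ≫ r.r) := by rw [r.retract]; infer_instance
    exact mono_of_mono r.i r.r
  let g : R ⟶ C := r.i ≫ biprod.snd
  let S2 : ShortComplex 𝒜 := ShortComplex.mk (kernel.ι g) (Abelian.factorThruImage g) (by
    rw [← cancel_mono (Abelian.image.ι g)]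
    simp)
  have h2 : S2.ShortExact := by
    refine ⟨?_⟩
    have h21 : (ShortComplex.mk (kernel.ι g) g (kernel.condition g)).Exact :=
      ShortComplex.exact_kernel g
    let φ : S2 ⟶ ShortComplex.mk (kernel.ι g) g (kernel.condition g) :=
      { τ₁ := 𝟙 _
        τ₂ := 𝟙 _
        τ₃ := Abelian.image.ι g
        comm₁₂ := by simp [S2]
        comm₂₃ := by simp [S2] }
    have i1 : Epi φ.τ₁ := by dsimp [φ]; infer_instance
    have i2 : IsIso φ.τ₂ := by dsimp [φ]; infer_instance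
    have i3 : Mono φ.τ₃ := by dsimp [φ]; infer_instance
    exact (ShortComplex.exact_iff_of_epi_of_isIso_of_mono φ).2 h21
  obtain ⟨s2⟩ := hs S2 h2
  have hm : Mono (kernel.ι g ≫ r.i ≫ biprod.fst) := by
    refine Preadditive.mono_of_cancel_zero _ fun {Z} x hx => ?_
    have e : x ≫ kernel.ι g ≫ r.i = 0 := by
      apply biprod.hom_ext
      · simpa using hx
      · have e1 : kernel.ι g ≫ r.i ≫ biprod.snd = 0 := kernel.condition g
        simp only [Category.assoc, e1, comp_zero, zero_comp]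
    rw [← cancel_mono (kernel.ι g), ← cancel_mono r.i, Category.assoc, e]
    simp
  refine ⟨kernel g, Abelian.image g, fac_of_mono hs (kernel.ι g ≫ r.i ≫ biprod.fst),
    fac_of_mono hs (Abelian.image.ι g), ⟨s2.isoBinaryBiproduct⟩⟩

lemma ord_iso (hT : IsData T) {v : T.Pl} {A B : 𝒜} (h : Nonempty (A ≅ B)) (hA : T.Ord v A) :
    T.Ord v B := by
  intro x
  obtain ⟨h1, h2⟩ := hT.iso h
  rw [← h1, ← h2, hA x]

lemma ord_sum (hT : IsData T) (A B : 𝒜) :
    ∀ᶠ v in Filter.cofinite, T.Ord v A → T.Ord v B → T.Ord v (A ⊞ B) := by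
  obtain ⟨h1, h2⟩ := hT.sum A B
  filter_upwards [h2] with v hv hA hB x
  rw [hv x, h1, hA x, hB x]

lemma ord_twist (hT : IsData T) (A : 𝒜) :
    ∀ᶠ v in Filter.cofinite, T.Ord v A → T.Ord v (A ⊗ T.L) := by
  obtain ⟨h1, h2⟩ := hT.tensor A T.L
  obtain ⟨h3, h4⟩ := hT.lefschetz
  filter_upwards [h2, h4] with v hv hv' hA x
  rw [hv x, h1, hA x, hv' x, h3]

/-- it suffices to consider the direct factors one at a time -/
lemma of_reps (hT : IsData T) {B : 𝒜} {p : T.Pl → Prop}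
    (h : ∀ R, Fac R B → ∀ᶠ v in Filter.cofinite, p v → T.Ord v R) :
    ∀ᶠ v in Filter.cofinite, p v → T.AllOrd v B := by
  obtain ⟨m, R, hR, hB⟩ := hT.finite B
  have h1 : ∀ᶠ v in Filter.cofinite, ∀ j, p v → T.Ord v (R j) :=
    Filter.eventually_all.mpr fun j => h (R j) (hR j)
  filter_upwards [h1] with v hv hp A hA
  obtain ⟨j, hj⟩ := hB A hA
  exact ord_iso hT hj (hv j hp)

section good

variable (T) in
/-- almost all places with the property `p` are ordinary for all direct factors of `B` -/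
def Good (p : T.Pl → Prop) (B : 𝒜) : Prop := ∀ᶠ v in Filter.cofinite, p v → T.AllOrd v B

variable {p : T.Pl → Prop}

lemma Good.unit (hT : IsData T) : Good T p (𝟙_ 𝒜) := by
  refine of_reps hT fun R hR => ?_
  filter_upwards [hT.unit.2 R hR] with v hv _
  exact hv

lemma Good.fac {B C : 𝒜} (h : Fac B C) (hC : Good T p C) : Good T p B := by
  filter_upwards [hC] with v hv hp R hR
  exact hv hp R (hR.trans h)

lemma Good.sum (hT : IsData T) {B C : 𝒜} (hB : Good T p B) (hC : Good T p C) :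
    Good T p (B ⊞ C) := by
  refine of_reps hT fun R hR => ?_
  obtain ⟨R1, R2, h1, h2, ⟨e⟩⟩ := fac_split hT.semisimple hR
  filter_upwards [hB, hC, ord_sum hT R1 R2] with v hv hv' hs hp
  exact ord_iso hT ⟨e.symm⟩ (hs (hv hp R1 h1) (hv' hp R2 h2))

lemma Good.twist (hT : IsData T) {B : 𝒜} (hB : Good T p B) : Good T p (B ⊗ T.L) := by
  refine of_reps hT fun R hR => ?_
  obtain ⟨R', h1, ⟨e⟩⟩ := hT.twist B R hR
  filter_upwards [hB, ord_twist hT R'] with v hv hs hp
  exact ord_iso hT ⟨e.symm⟩ (hs (hv hp R' h1))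

lemma Good.of_gen (hT : IsData T) {A B : 𝒜} (h : Gen T A B) (hA : Good T p A) : Good T p B := by
  induction h with
  | base => exact hA
  | unit => exact Good.unit hT
  | twist _ h => exact Good.twist hT h
  | fac hf _ h => exact Good.fac hf h
  | sum _ _ h h' => exact Good.sum hT h h'

/-- ordinarity is inherited by the generated motives -/
theorem allOrd_of_gen (hT : IsData T) {A B : 𝒜} (h : Gen T A B) :
    ∀ᶠ v in Filter.cofinite, T.AllOrd v A → T.AllOrd v B :=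
  Good.of_gen (p := fun v => T.AllOrd v A) hT h (Filter.Eventually.of_forall fun _ h => h)

end good

theorem large_of_gen (hT : IsData T) {Lg : Set T.Pl → Prop} (hL : IsLargeness Lg) {A B : 𝒜}
    (h : Gen T A B) (hA : Lg {v | T.AllOrd v A}) : Lg {v | T.AllOrd v B} :=
  hL _ _ hA (allOrd_of_gen hT h)

/-! ### One motive of one degree -/

variable (T) in
/-- `R` is a direct factor of `h^k(X)` for a smooth projective `X` -/
def In (k : ℤ) (R : 𝒜) : Prop := ∃ X : Sch K, SmProj X ∧ Fac R (T.H X k)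

lemma Fac.biprod {A B A' B' : 𝒜} : Fac A B → Fac A' B' → Fac (A ⊞ A') (B ⊞ B') := by
  rintro ⟨r⟩ ⟨s⟩
  exact ⟨⟨biprod.map r.i s.i, biprod.map r.r s.r, by
    rw [biprod.map_eq]
    ext <;> simp⟩⟩

lemma In.sum (hT : IsData T) {k : ℤ} {R R' : 𝒜} (h : In T k R) (h' : In T k R') :
    In T k (R ⊞ R') := by
  obtain ⟨X, hX, hR⟩ := h
  obtain ⟨X', hX', hR'⟩ := h'
  obtain ⟨X'', hX'', -, he⟩ := hT.disjoint X X' hX hX'
  obtain ⟨e⟩ := he k
  exact ⟨X'', hX'', (Fac.biprod hR hR').trans (Fac.of_iso e.symm)⟩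

lemma In.tensor (hT : IsData T) {k k' : ℤ} {R R' : 𝒜} (h : In T k R) (h' : In T k' R') :
    In T (k + k') (R ⊗ R') := by
  obtain ⟨X, hX, hR⟩ := h
  obtain ⟨X', hX', hR'⟩ := h'
  obtain ⟨Z, hZ, he⟩ := hT.kunneth X X' hX hX'
  exact ⟨Z, hZ, (hR.tensor hR').trans (he k k')⟩

lemma In.lpow (hT : IsData T) (n : ℕ) : In T (2 * (n : ℤ)) (lpow T.L n) := by
  obtain ⟨P, hP, h0, h2⟩ := hT.line
  induction n with
  | zero => exact ⟨P, hP, h0⟩
  | succ n ih =>
    have h1 := In.tensor hT ih ⟨P, hP, h2⟩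
    have e : 2 * (n : ℤ) + 2 = 2 * ((n + 1 : ℕ) : ℤ) := by push_cast; ring
    rw [e] at h1
    exact h1

/-- `n + 1` copies -/
noncomputable def copies (R : 𝒜) : ℕ → 𝒜
  | 0 => R
  | n + 1 => copies R n ⊞ R

lemma In.copies (hT : IsData T) {k : ℤ} {R : 𝒜} (h : In T k R) (n : ℕ) :
    In T k (copies R n) := by
  induction n with
  | zero => exact h
  | succ n ih => exact In.sum hT ih h

lemma copies_slopes (hT : IsData T) (R : 𝒜) (n : ℕ) :
    T.hodge (copies R n) = (n + 1) • T.hodge R ∧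
      ∀ᶠ v in Filter.cofinite, ∀ x : T.R v, T.newton v x (copies R n) = (n + 1) • T.newton v x R := by
  induction n with
  | zero =>
    refine ⟨by simp [copies], Filter.Eventually.of_forall fun v x => by simp [copies]⟩
  | succ n ih =>
    obtain ⟨h1, h2⟩ := ih
    obtain ⟨h3, h4⟩ := hT.sum (copies R n) R
    refine ⟨by rw [copies, h3, h1]; exact (succ_nsmul _ _).symm, ?_⟩
    filter_upwards [h2, h4] with v hv hv' x
    rw [copies, hv' x, hv x]
    exact (succ_nsmul _ _).symm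

lemma lpow_slopes (hT : IsData T) (n : ℕ) :
    T.hodge (lpow T.L n) = AddMonoidAlgebra.single (n : ℚ) 1 ∧
      ∀ᶠ v in Filter.cofinite, ∀ x : T.R v,
        T.newton v x (lpow T.L n) = AddMonoidAlgebra.single (n : ℚ) 1 := by
  induction n with
  | zero =>
    refine ⟨by rw [lpow, hT.unit.1, Nat.cast_zero]; rfl, ?_⟩
    filter_upwards [hT.unit.2 _ (Fac.refl _)] with v hv x
    rw [lpow, hv x, hT.unit.1, Nat.cast_zero]
    rfl
  | succ n ih =>
    obtain ⟨h1, h2⟩ := ih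
    obtain ⟨h3, h4⟩ := hT.tensor (lpow T.L n) T.L
    obtain ⟨h5, h6⟩ := hT.lefschetz
    refine ⟨by rw [lpow, h3, h1, h5, AddMonoidAlgebra.single_mul_single]; push_cast; simp, ?_⟩
    filter_upwards [h2, h4, h6] with v hv hv' hv'' x
    rw [lpow, hv' x, hv x, hv'' x, AddMonoidAlgebra.single_mul_single]
    push_cast
    simp

/-- the square of `R` and a Tate twist -/
noncomputable def sq (T : Data K 𝒜) (R : 𝒜) (n : ℕ) : 𝒜 := (R ⊗ R) ⊗ lpow T.L n

lemma sq_slopes (hT : IsData T) (R : 𝒜) (n : ℕ) :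
    T.hodge (sq T R n) = T.hodge R * T.hodge R * AddMonoidAlgebra.single (n : ℚ) 1 ∧
      ∀ᶠ v in Filter.cofinite, ∀ x : T.R v, T.newton v x (sq T R n) =
        T.newton v x R * T.newton v x R * AddMonoidAlgebra.single (n : ℚ) 1 := by
  obtain ⟨h1, h2⟩ := hT.tensor R R
  obtain ⟨h3, h4⟩ := hT.tensor (R ⊗ R) (lpow T.L n)
  obtain ⟨h5, h6⟩ := lpow_slopes hT n
  refine ⟨by rw [sq, h3, h1, h5], ?_⟩
  filter_upwards [h2, h4, h6] with v hv hv' hv'' x
  rw [sq, hv' x, hv x, hv'' x]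

lemma In.sq (hT : IsData T) {k : ℤ} {R : 𝒜} (h : In T k R) (n : ℕ) :
    In T (k + k + 2 * (n : ℤ)) (sq T R n) :=
  In.tensor hT (In.tensor hT h h) (In.lpow hT n)

/-- two motives, of arbitrary degrees, are controlled by one motive of an even degree -/
lemma in_pair (hT : IsData T) {i i' : ℕ} {R R' : 𝒜} (h : In T (i : ℤ) R) (h' : In T (i' : ℤ) R') :
    ∃ S, In T ((2 * (i + i') : ℕ) : ℤ) S ∧
      ∀ᶠ v in Filter.cofinite, T.Ord v S → T.Ord v R ∧ T.Ord v R' := by
  have h1 := In.sq hT h i'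
  have h2 := In.sq hT h' i
  have e1 : (i : ℤ) + i + 2 * (i' : ℤ) = ((2 * (i + i') : ℕ) : ℤ) := by push_cast; ring
  have e2 : (i' : ℤ) + i' + 2 * (i : ℤ) = ((2 * (i + i') : ℕ) : ℤ) := by push_cast; ring
  rw [e1] at h1
  rw [e2] at h2
  set B := total (T.hodge (sq T R' i)) with hB
  refine ⟨copies (sq T R i') B ⊞ sq T R' i, In.sum hT (In.copies hT h1 B) h2, ?_⟩
  obtain ⟨a1, a2⟩ := hT.sum (copies (sq T R i') B) (sq T R' i)
  obtain ⟨b1, b2⟩ := copies_slopes hT (sq T R i') B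
  obtain ⟨c1, c2⟩ := sq_slopes hT R i'
  obtain ⟨d1, d2⟩ := sq_slopes hT R' i
  filter_upwards [a2, b2, c2, d2, hT.length (sq T R' i)] with v va vb vc vd vl hS
  have key : ∀ x : T.R v, T.newton v x R = T.hodge R ∧ T.newton v x R' = T.hodge R' := by
    intro x
    have h3 := hS x
    rw [va x, a1, vb x, b1] at h3
    obtain ⟨h4, h5⟩ := eq_of_digits B (by rw [vl x]) hB.symm.le h3
    rw [vc x, c1] at h4
    rw [vd x, d1] at h5
    exact ⟨eq_of_sq (cancel_single _ h4), eq_of_sq (cancel_single _ h5)⟩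
  exact ⟨fun x => (key x).1, fun x => (key x).2⟩

/-- finitely many motives, of arbitrary degrees, are controlled by one motive of an even degree -/
lemma in_fin (hT : IsData T) {m : ℕ} (f : Fin m → 𝒜) (h : ∀ j, ∃ i : ℕ, In T (i : ℤ) (f j)) :
    ∃ (i : ℕ) (S : 𝒜), In T ((2 * i : ℕ) : ℤ) S ∧
      ∀ᶠ v in Filter.cofinite, T.Ord v S → ∀ j, T.Ord v (f j) := by
  classical
  suffices H : ∀ s : Finset (Fin m), ∃ (i : ℕ) (S : 𝒜), In T ((2 * i : ℕ) : ℤ) S ∧
      ∀ᶠ v in Filter.cofinite, T.Ord v S → ∀ j ∈ s, T.Ord v (f j) by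
    obtain ⟨i, S, hS, h1⟩ := H Finset.univ
    exact ⟨i, S, hS, h1.mono fun v hv h2 j => hv h2 j (Finset.mem_univ j)⟩
  intro s
  induction s using Finset.induction_on with
  | empty =>
    have h1 := In.lpow hT 0
    exact ⟨0, _, h1, Filter.Eventually.of_forall fun v _ j hj =>
      absurd hj (Finset.notMem_empty j)⟩
  | insert a s _ ih =>
    obtain ⟨i, S, hS, h1⟩ := ih
    obtain ⟨k, hk⟩ := h a
    obtain ⟨S', hS', h2⟩ := in_pair hT hS hk
    refine ⟨2 * i + k, S', hS', ?_⟩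
    filter_upwards [h1, h2] with v hv hv' hS j hj
    rcases Finset.mem_insert.mp hj with rfl | hj
    · exact (hv' hS).2
    · exact hv (hv' hS).1 j hj

/-- all direct factors of the motives of `X` are controlled by one motive of an even degree -/
lemma in_tot (hT : IsData T) (X : Sch K) (hX : SmProj X) (n : ℕ) :
    ∃ (i : ℕ) (S : 𝒜), In T ((2 * i : ℕ) : ℤ) S ∧ Good T (fun v => T.Ord v S) (T.tot X n) := by
  classical
  -- the direct factors of each `h^q(X)`
  choose m R hR hB using fun q : Fin n => hT.finite (T.H X ((q : ℕ) : ℤ))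
  let J := Σ q : Fin n, Fin (m q)
  let e : Fin (Fintype.card J) ≃ J := (Fintype.equivFin J).symm
  obtain ⟨i, S, hS, h1⟩ := in_fin hT (fun j => R (e j).1 (e j).2)
    fun j => ⟨(e j).1, X, hX, hR _ _⟩
  refine ⟨i, S, hS, ?_⟩
  have h2 : ∀ q : Fin n, Good T (fun v => T.Ord v S) (T.H X ((q : ℕ) : ℤ)) := by
    intro q
    unfold Good
    filter_upwards [h1] with v hv hp A hA
    obtain ⟨j, hj⟩ := hB q A hA
    have h3 := hv hp (e.symm ⟨q, j⟩)
    rw [Equiv.apply_symm_apply] at h3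
    exact ord_iso hT hj h3
  -- their sum
  have h3 : ∀ k, k ≤ n → ∃ A : 𝒜, Good T (fun v => T.Ord v S) A ∧
      ∀ q : ℕ, q < k → Fac (T.H X (q : ℤ)) A := by
    intro k
    induction k with
    | zero => exact fun _ => ⟨𝟙_ 𝒜, Good.unit hT, fun q hq => absurd hq (Nat.not_lt_zero q)⟩
    | succ k ih =>
      intro hk
      obtain ⟨A, hA, hq⟩ := ih (by omega)
      refine ⟨A ⊞ T.H X (k : ℤ), Good.sum hT hA (h2 ⟨k, by omega⟩), fun q hq' => ?_⟩
      rcases Nat.lt_or_ge q k with h | h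
      · exact (hq q h).trans (fac_inl _ _)
      · obtain rfl : q = k := by omega
        exact fac_inr _ _
  obtain ⟨A, hA, hq⟩ := h3 n le_rfl
  exact Good.of_gen hT (Gen.bigsum _ fun q => Gen.fac (hq q q.2) Gen.base) hA

/-! ### The explicit motives and smooth projective schemes -/

lemma dir_MM : IsDir T fun N => T.M N N := fun i j =>
  ⟨max i j, M_mono (le_max_left _ _) (le_max_left _ _),
    M_mono (le_max_right _ _) (le_max_right _ _)⟩

lemma gen_all (hT : IsData T) (Y : Sch ℚ) (hY : FT True Y) : PE T (fun N => T.M N N) Y := by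
  refine (r_all_frac isFrac_rat (ru_of_dir hT dir_MM)).2 ?_ Y hY
  intro a b c t ht i
  rcases lt_or_ge i 0 with hi | hi
  · exact ⟨0, gen_zero (hT.negative _ (ft_bilS t) i hi)⟩
  · obtain ⟨n, rfl⟩ := Int.eq_ofNat_of_zero_le hi
    exact ⟨a + b + c + n + 1, gen_M_bil t ht n (by omega) (by omega) (by omega) (by omega)⟩

lemma H_gen_MM (hT : IsData T) (X : Sch K) (hX : SmProj X) (i : ℤ) :
    ∃ N, Gen T (T.M N N) (T.H X i) := by
  obtain ⟨Y, hY, _, h⟩ := hT.model X hX
  obtain ⟨N, hN⟩ := gen_all hT Y hY i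
  exact ⟨N, Gen.fac (h _) hN⟩

lemma tot_gen_M (hT : IsData T) (d : ℕ) (X : Sch K) (hX : SmProj X)
    (hd : topologicalKrullDim X.left ≤ d) (n : ℕ) :
    ∃ N, Gen T (T.M N (d + 3)) (T.tot X n) := by
  obtain ⟨Y, hY, hYd, h⟩ := hT.model X hX
  refine dir_big (dir_M (d + 3)) _ fun q => ?_
  obtain ⟨N, hN⟩ := gen_of_dim hT d Y hY (hYd d hd) (q : ℤ)
  exact ⟨N, Gen.fac (h _) hN⟩

/-- smooth projective schemes of dimension at most `d`, and a bound for the degrees -/
abbrev SP (K : Type) [Field K] (d : ℕ) : Type 1 :=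
  {X : Sch K // SmProj X ∧ topologicalKrullDim X.left ≤ d} × ℕ

/-- the family of the cohomology of smooth projective schemes -/
noncomputable def fam (T : Data K 𝒜) (d : ℕ) (x : SP K d) : 𝒜 := T.tot x.1.1 x.2

lemma fac_tot (X : Sch K) {q n : ℕ} (h : q < n) : Fac (T.H X (q : ℤ)) (T.tot X n) :=
  fac_big (fun q : Fin n => T.H X (q : ℤ)) ⟨q, h⟩

lemma dir_fam (hT : IsData T) (d : ℕ) : IsDir T (fam T d) := by
  rintro ⟨⟨X, hX, hXd⟩, n⟩ ⟨⟨X', hX', hXd'⟩, n'⟩
  obtain ⟨X'', hX'', hd'', h⟩ := hT.disjoint X X' hX hX'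
  have h1 : ∀ i, Fac (T.H X i) (T.H X'' i) := fun i => by
    obtain ⟨e⟩ := h i
    exact (fac_inl _ _).trans (Fac.of_iso e.symm)
  have h2 : ∀ i, Fac (T.H X' i) (T.H X'' i) := fun i => by
    obtain ⟨e⟩ := h i
    exact (fac_inr _ _).trans (Fac.of_iso e.symm)
  refine ⟨⟨⟨X'', hX'', hd'' d hXd hXd'⟩, max n n'⟩, ?_, ?_⟩
  · exact Gen.bigsum _ fun q => Gen.fac ((h1 _).trans
      (fac_tot X'' (q.2.trans_le (le_max_left _ _)))) Gen.base
  · exact Gen.bigsum _ fun q => Gen.fac ((h2 _).trans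
      (fac_tot X'' (q.2.trans_le (le_max_right _ _)))) Gen.base

lemma nonempty_SP (hT : IsData T) (d : ℕ) : Nonempty (SP K d) := by
  obtain ⟨X, hX, hd, _⟩ := hT.resolution (aff ℚ ℚ) (ft_aff True) 0
    (by rw [Pool.Agent.Z125.UN.topDim_aff, ringKrullDim_eq_zero_of_field]; rfl) 0
  exact ⟨⟨⟨X, hX, hd.trans (by exact_mod_cast Nat.zero_le d)⟩, 0⟩⟩

lemma ru_fam (hT : IsData T) (d : ℕ) : RU True (PE T (fam T d)) := by
  have := nonempty_SP hT d
  exact ru_of_dir hT (dir_fam hT d)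

lemma fam_dim (hT : IsData T) (d : ℕ) (Y : Sch ℚ) (hY : FT True Y)
    (hd : topologicalKrullDim Y.left ≤ d) : PE T (fam T d) Y := by
  intro i
  obtain ⟨X, hX, hXd, n, h⟩ := hT.resolution Y hY d hd i
  exact ⟨⟨⟨X, hX, hXd⟩, n⟩, Gen.fac h Gen.base⟩

/-- the cohomology of the solutions of bilinear equations with at most `d + 2` variables `y` or
`z` is generated by smooth projective schemes of dimension at most `d` -/
theorem bil_fam (hT : IsData T) (d : ℕ) {a b c : ℕ} (t : Fin a → Fin b → Fin c → ℚ)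
    (hm : b ≤ d + 2 ∨ c ≤ d + 2) : PE T (fam T d) (bilS t) :=
  bil_either (ru_fam hT d).dn ((r_dim (ru_fam hT d) d).1 (fam_dim hT d)) t hm

theorem M_fam (hT : IsData T) (d N : ℕ) : ∃ x, Gen T (fam T d x) (T.M N (d + 3)) := by
  have := nonempty_SP hT d
  refine dir_big (dir_fam hT d) _ fun x => ?_
  obtain ⟨a, b, c, t, i⟩ := x
  exact bil_fam hT d _ (Or.inr (Nat.lt_succ_iff.mp c.2)) _

end Pool.Agent.Y116.OR
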